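import Mathlib

/-!
# Kummer duality for arbitrary (infinite) Galois extensions

`U / M` Galois, `R` a group of elements of `U` such that every automorphism over `M` multiplies every
element of `R` by an element of `M`.  Every homomorphism `χ : R → M` which is trivial on the elements
of `M` comes from an automorphism `T`: `T w = χ w * w`.
-/

set_option autoImplicit false

namespace Pool.Agent.TOW

open scoped Classical in
/-- The character `σ ↦ σ w / w`. -/
noncomputable def kap54 {M U : Type*} [Field M] [Field U] [Algebra M U] (w : Uˣ)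
    (hw : ∀ σ : U ≃ₐ[M] U, ∃ c : M, σ (w : U) = algebraMap M U c * (w : U)) :
    (U ≃ₐ[M] U) →* U where
  toFun σ := σ (w : U) / (w : U)
  map_one' := by
    rw [AlgEquiv.one_apply]
    exact div_self w.ne_zero
  map_mul' σ τ := by
    obtain ⟨c, hc⟩ := hw τ
    have hw0 : (w : U) ≠ 0 := w.ne_zero
    rw [AlgEquiv.mul_apply, hc, map_mul, AlgEquiv.commutes, mul_div_assoc, mul_comm,
      mul_div_assoc, div_self hw0, mul_one]

theorem kummer54 {M U : Type*} [Field M] [Field U] [Algebra M U] [IsGalois M U] (R : Subgroup Uˣ)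
    (hR : ∀ (w : R) (σ : U ≃ₐ[M] U), ∃ c : M,
      σ ((w : Uˣ) : U) = algebraMap M U c * ((w : Uˣ) : U))
    (χ : R →* M) (hχ : ∀ w : R, ((w : Uˣ) : U) ∈ Set.range (algebraMap M U) → χ w = 1) :
    ∃ T : U ≃ₐ[M] U, ∀ w : R, T ((w : Uˣ) : U) = algebraMap M U (χ w) * ((w : Uˣ) : U) := by
  classical
  let κ : R → ((U ≃ₐ[M] U) →* U) := fun w => kap54 (w : Uˣ) (hR w)
  have hκa : ∀ (w : R) (σ : U ≃ₐ[M] U), κ w σ * ((w : Uˣ) : U) = σ ((w : Uˣ) : U) := fun w σ =>
    div_mul_cancel₀ _ (w : Uˣ).ne_zero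
  have hκ : ∀ w w' : R, κ w = κ w' → χ w = χ w' := by
    intro w w' h
    have h1 : χ (w / w') = 1 := by
      refine hχ _ ((InfiniteGalois.mem_range_algebraMap_iff_fixed _).2 fun σ => ?_)
      have h2 : (((w / w' : R) : Uˣ) : U) = ((w : Uˣ) : U) / ((w' : Uˣ) : U) := by
        push_cast
        rfl
      have h3 := hκa w σ
      have h4 := hκa w' σ
      rw [h] at h3
      have h5 : κ w' σ ≠ 0 := by
        intro h0
        rw [h0, zero_mul] at h4
        exact (w' : Uˣ).ne_zero ((map_eq_zero _).1 h4.symm)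
      rw [h2, map_div₀, ← h3, ← h4, mul_div_mul_left _ _ h5]
    rw [div_eq_mul_inv, map_mul] at h1
    have h2 : χ w'⁻¹ * χ w' = 1 := by rw [← map_mul, inv_mul_cancel, map_one]
    calc χ w = χ w * (χ w'⁻¹ * χ w') := by rw [h2, mul_one]
      _ = χ w' := by rw [← mul_assoc, h1, one_mul]
  let ι : R →* U := (Units.coeHom U).comp R.subtype
  let ιχ : R →* U := ((algebraMap M U : M →* U).comp χ) * ι
  have hιa : ∀ w : R, ι w = ((w : Uˣ) : U) := fun w => rfl
  have hιχa : ∀ w : R, ιχ w = algebraMap M U (χ w) * ((w : Uˣ) : U) := fun w => rfl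
  let φ : MonoidAlgebra M R →ₐ[M] U := MonoidAlgebra.lift M U R ι
  let φχ : MonoidAlgebra M R →ₐ[M] U := MonoidAlgebra.lift M U R ιχ
  have hφa : ∀ f : MonoidAlgebra M R, φ f = ∑ w ∈ f.coeff.support, f.coeff w • ι w := by
    intro f
    exact MonoidAlgebra.lift_apply _ _
  have hφχa : ∀ f : MonoidAlgebra M R, φχ f = ∑ w ∈ f.coeff.support, f.coeff w • ιχ w := by
    intro f
    exact MonoidAlgebra.lift_apply _ _
  have key : ∀ f : MonoidAlgebra M R, φ f = 0 → φχ f = 0 := by
    intro f hf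
    rw [hφa] at hf
    rw [hφχa]
    set S := f.coeff.support with hS
    -- the coefficients of the characters
    let c : ((U ≃ₐ[M] U) →* U) → U := fun κ' => ∑ w ∈ S.filter (fun w => κ w = κ'), f.coeff w • ι w
    have h1 : ∑ κ' ∈ S.image κ, c κ' • (κ' : (U ≃ₐ[M] U) → U) = 0 := by
      funext σ
      have h2 : σ (∑ w ∈ S, f.coeff w • ι w) = 0 := by rw [hf, map_zero]
      rw [map_sum] at h2
      rw [Finset.sum_apply, Pi.zero_apply, ← h2, ← Finset.sum_fiberwise_of_maps_to
        (s := S) (t := S.image κ) (g := κ) (fun w hw => Finset.mem_image_of_mem _ hw)]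
      refine Finset.sum_congr rfl fun κ' _ => ?_
      rw [Pi.smul_apply, smul_eq_mul, Finset.sum_mul]
      refine Finset.sum_congr rfl fun w hw => ?_
      have h3 : κ w = κ' := (Finset.mem_filter.1 hw).2
      rw [← h3, map_smul, hιa, ← hκa w σ, Algebra.smul_def, Algebra.smul_def]
      ring
    have h2 := linearIndependent_iff'.1 (linearIndependent_monoidHom (U ≃ₐ[M] U) U) _ c h1
    rw [← Finset.sum_fiberwise_of_maps_to
        (s := S) (t := S.image κ) (g := κ) (fun w hw => Finset.mem_image_of_mem _ hw)]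
    refine Finset.sum_eq_zero fun κ' hκ' => ?_
    obtain ⟨w₀, hw₀, hw₀'⟩ := Finset.mem_image.1 hκ'
    have h3 : ∑ w ∈ S with κ w = κ', f.coeff w • ιχ w = algebraMap M U (χ w₀) * c κ' := by
      rw [Finset.mul_sum]
      refine Finset.sum_congr rfl fun w hw => ?_
      have h4 : κ w = κ' := (Finset.mem_filter.1 hw).2
      rw [hιχa, hκ w w₀ (h4.trans hw₀'.symm), hιa, Algebra.smul_def, Algebra.smul_def]
      ring
    rw [h3, h2 κ' hκ', mul_zero]
  -- the field generated by `R`
  let S : Subalgebra M U := φ.range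
  have halg : Algebra.IsIntegral M U := inferInstance
  have hSint : Algebra.IsIntegral M S :=
    Algebra.IsIntegral.of_injective S.val Subtype.val_injective
  have hSf : IsField S := isField_of_isIntegral_of_isField' (Field.toIsField M)
  let K : IntermediateField M U := S.toIntermediateField' hSf
  have hKS : ∀ z : K, (z : U) ∈ S := fun z => z.2
  let θ : (MonoidAlgebra M R ⧸ RingHom.ker φ.rangeRestrict) →ₐ[M] U :=
    Ideal.Quotient.liftₐ _ φχ (fun a ha => by
      refine key a ?_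
      have h1 : φ.rangeRestrict a = 0 := ha
      exact congrArg Subtype.val h1)
  let e := Ideal.quotientKerAlgEquivOfSurjective (f := φ.rangeRestrict) φ.rangeRestrict_surjective
  let ψ : K →ₐ[M] U := (θ.comp (e.symm : S →ₐ[M] _) : S →ₐ[M] U)
  have hψ : ∀ (w : R) (hw : ((w : Uˣ) : U) ∈ K), ψ ⟨_, hw⟩ =
      algebraMap M U (χ w) * ((w : Uˣ) : U) := by
    intro w hw
    have h1 : φ (MonoidAlgebra.of M R w) = ((w : Uˣ) : U) := by
      exact (MonoidAlgebra.lift_of _ _).trans rfl
    have h2 : e (Ideal.Quotient.mk _ (MonoidAlgebra.of M R w)) = (⟨((w : Uˣ) : U), hw⟩ : S) := by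
      refine Subtype.ext ?_
      exact h1
    have h3 : e.symm (⟨((w : Uˣ) : U), hw⟩ : S) = Ideal.Quotient.mk _ (MonoidAlgebra.of M R w) := by
      rw [← h2, AlgEquiv.symm_apply_apply]
    have h4 : ψ ⟨_, hw⟩ = θ (e.symm (⟨((w : Uˣ) : U), hw⟩ : S)) := rfl
    rw [h4, h3]
    have h5 : θ (Ideal.Quotient.mk _ (MonoidAlgebra.of M R w)) = φχ (MonoidAlgebra.of M R w) := rfl
    rw [h5]
    exact (MonoidAlgebra.lift_of _ _).trans (hιχa w)
  have hmem : ∀ w : R, ((w : Uˣ) : U) ∈ K := by
    intro w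
    exact ⟨MonoidAlgebra.of M R w, (MonoidAlgebra.lift_of _ _).trans rfl⟩
  let T0 : U →ₐ[M] U := AlgHom.liftNormal ψ U
  refine ⟨AlgEquiv.ofBijective T0 (AlgHom.normal_bijective M U U _), fun w => ?_⟩
  have h1 := AlgHom.liftNormal_commutes ψ U (⟨_, hmem w⟩ : K)
  rw [hψ w (hmem w)] at h1
  exact h1

end Pool.Agent.TOW
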