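import Pool.Agent.Helper45.TW.Defs
import Pool.Agent.Helper54.TW.Kum

/-!
# Project TW, block KD: Kummer duality for the level `2 ^ n`
-/

set_option autoImplicit false

namespace Pool.Agent.TOW

open VC IntermediateField NumberField IsDedekindDomain Pool.Agent.SC Pool.Agent.L Pool.Agent.M

/-- a root of unity is a constant -/
private theorem root_const54 {E U : Type} [Field E] [IsAlgClosed E] [Field U] [Algebra E U] {n : ℕ}
    (hn : 0 < n) {ζ : U} (hζ : ζ ^ n = 1) : ∃ e : E, algebraMap E U e = ζ := by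
  have h1 : IsIntegral E ζ := by
    refine ⟨Polynomial.X ^ n - Polynomial.C 1, Polynomial.monic_X_pow_sub_C _ hn.ne', ?_⟩
    simp [hζ]
  have h2 : (minpoly E ζ).degree = 1 :=
    IsAlgClosed.degree_eq_one_of_irreducible E (minpoly.irreducible h1)
  exact minpoly.mem_range_of_degree_eq_one E ζ h2

/-- Kummer duality over an intermediate field `M` with `U / M` Galois: every character of the group of
elements `w` with `w ^ N ∈ M`, trivial on `M`, comes from an automorphism over `M`. -/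
theorem kummer_cover54 {E U : Type} [Field E] [IsAlgClosed E] [Field U] [Algebra E U]
    (M : IntermediateField E U) [IsGalois M U] {N : ℕ} (hN : 0 < N) (χ : U → E)
    (hmul : ∀ w w' : U, w ≠ 0 → w ^ N ∈ M → w' ≠ 0 → w' ^ N ∈ M → χ (w * w') = χ w * χ w')
    (hM : ∀ w ∈ M, w ≠ 0 → χ w = 1) :
    ∃ T : U ≃ₐ[M] U, ∀ w : U, w ≠ 0 → w ^ N ∈ M → T w = algebraMap E U (χ w) * w := by
  let R : Subgroup Uˣ :=
    { carrier := {w | ((w : U)) ^ N ∈ M}
      one_mem' := by
        change ((1 : Uˣ) : U) ^ N ∈ M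
        rw [Units.val_one, one_pow]
        exact one_mem M
      mul_mem' := fun {a b} ha hb => by
        change ((a * b : Uˣ) : U) ^ N ∈ M
        rw [Units.val_mul, mul_pow]
        exact mul_mem ha hb
      inv_mem' := fun {a} ha => by
        change ((a⁻¹ : Uˣ) : U) ^ N ∈ M
        rw [Units.val_inv_eq_inv_val, inv_pow]
        exact inv_mem ha }
  have hRa : ∀ w : R, ((w : Uˣ) : U) ^ N ∈ M := fun w => w.2
  let χR : R →* M :=
    { toFun := fun w => algebraMap E M (χ ((w : Uˣ) : U))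
      map_one' := by
        have h1 : χ (((1 : R) : Uˣ) : U) = 1 := hM _ (by exact one_mem M) one_ne_zero
        rw [h1, map_one]
      map_mul' := fun a b => by
        have h1 : χ (((a * b : R) : Uˣ) : U) = χ ((a : Uˣ) : U) * χ ((b : Uˣ) : U) :=
          hmul _ _ (a : Uˣ).ne_zero (hRa a) (b : Uˣ).ne_zero (hRa b)
        rw [h1, map_mul] }
  obtain ⟨T, hT⟩ := kummer54 (M := M) (U := U) R (by
    intro w σ
    have hw0 : ((w : Uˣ) : U) ≠ 0 := (w : Uˣ).ne_zero
    obtain ⟨e, he⟩ := root_const54 (E := E) hN (ζ := σ ((w : Uˣ) : U) / ((w : Uˣ) : U)) (by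
      have h1 : σ (((w : Uˣ) : U) ^ N) = ((w : Uˣ) : U) ^ N := σ.commutes ⟨_, hRa w⟩
      rw [div_pow, ← map_pow, h1]
      exact div_self (pow_ne_zero N hw0))
    refine ⟨algebraMap E M e, ?_⟩
    have h2 : algebraMap M U (algebraMap E M e) = algebraMap E U e := rfl
    rw [h2, he, div_mul_cancel₀ _ hw0]) χR (by
    rintro w ⟨m, hm⟩
    have h1 : χ ((w : Uˣ) : U) = 1 := hM _ (by rw [← hm]; exact m.2) (w : Uˣ).ne_zero
    change algebraMap E M (χ ((w : Uˣ) : U)) = 1
    rw [h1, map_one])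
  refine ⟨T, fun w hw0 hw => ?_⟩
  exact hT ⟨Units.mk0 w hw0, hw⟩

/-- BLOCK KD -/
theorem kD : StmtKD := by
  intro k K0 E U _ _ _ _ _ _ _ _ _ _ _ _ h r G n χ hmul hM _
  have : IsAlgClosed E := G.clE
  have : IsGalois (MM E K0 r) U := G.cover.gal
  obtain ⟨T, hT⟩ := kummer_cover54 (MM E K0 r) (Nat.two_pow_pos n) χ
    (fun w w' h1 h2 h3 h4 => hmul w w' ⟨h1, h2⟩ ⟨h3, h4⟩) hM
  refine ⟨T.toRingEquiv, ⟨fun x => ?_, fun e => ?_⟩, ?_, fun w hw => hT w hw.1 hw.2⟩
  · exact T.commutes (⟨algebraMap K0 U x,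
      IntermediateField.subset_adjoin _ _ (Or.inl ⟨x, rfl⟩)⟩ : MM E K0 r)
  · exact T.commutes (algebraMap E (MM E K0 r) e)
  · exact T.commutes (⟨r, IntermediateField.subset_adjoin _ _ (Or.inr rfl)⟩ : MM E K0 r)

end Pool.Agent.TOW
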